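import Pool.Agent.Results.MP_e09b14_ag.SmallExponentQuotients
import Mathlib.RingTheory.MvPolynomial.EulerIdentity
import Mathlib.RingTheory.RootsOfUnity.Complex

/-!
# Sections on twisted products `(Y × P(V)) / G`
-/

set_option autoImplicit false

namespace Pool.Agent.Zk57.TW

open MvPolynomial
open Pool.Agent.Results.MP_e09b14_ag.SmallExponentQuotients (DiagonalCover Section VeryAmple)

section chars

theorem finite_char (G : Type) [Group G] [Finite G] : Finite (G →* ℂˣ) := by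
  have hc : 0 < Nat.card G := Nat.card_pos
  have : NeZero (Nat.card G) := ⟨hc.ne'⟩
  have hf : Finite (G → rootsOfUnity (Nat.card G) ℂ) := inferInstance
  refine Finite.of_injective (β := G → rootsOfUnity (Nat.card G) ℂ)
    (fun χ g => ⟨χ g, ?_⟩) ?_
  · rw [mem_rootsOfUnity, ← map_pow, pow_card_eq_one', map_one]
  · intro χ χ' h
    ext g
    have h1 := congrFun h g
    simp only [Subtype.mk.injEq] at h1
    rw [h1]

theorem sum_char {G : Type} [Group G] [Fintype (G →* ℂˣ)] {g : G} (φ : G →* ℂˣ)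
    (h : φ g ≠ 1) : ∑ χ : G →* ℂˣ, ((χ g : ℂˣ) : ℂ) = 0 := by
  have h1 : ∑ χ : G →* ℂˣ, ((χ g : ℂˣ) : ℂ) = (φ g : ℂ) * ∑ χ : G →* ℂˣ, ((χ g : ℂˣ) : ℂ) := by
    rw [Finset.mul_sum]
    refine (Fintype.sum_equiv (Equiv.mulLeft φ) _ _ fun χ => ?_).symm
    rw [Equiv.coe_mulLeft, MonoidHom.mul_apply, Units.val_mul]
  have h2 : ((φ g : ℂ) - 1) * ∑ χ : G →* ℂˣ, ((χ g : ℂˣ) : ℂ) = 0 := by
    rw [sub_mul, one_mul, ← h1, sub_self]
  rcases mul_eq_zero.1 h2 with h3 | h3
  · exact (h (Units.ext (sub_eq_zero.1 h3))).elim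
  · exact h3

end chars

section act

variable {G : Type} [Group G] {N : ℕ} (D : DiagonalCover G N)

/-- the action on forms -/
noncomputable def act (g : G) :
    MvPolynomial (Fin (N + 1)) ℂ →ₐ[ℂ] MvPolynomial (Fin (N + 1)) ℂ :=
  bind₁ fun i => C (D.α i g : ℂ) * X i

/-- the action on vectors -/
def mv (g : G) (x : Fin (N + 1) → ℂ) : Fin (N + 1) → ℂ := fun i => (D.α i g : ℂ) * x i

theorem eval_act (g : G) (x : Fin (N + 1) → ℂ) (F : MvPolynomial (Fin (N + 1)) ℂ) :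
    eval x (act D g F) = eval (mv D g x) F := by
  unfold act mv
  rw [eval, eval₂Hom_bind₁]
  congr 2
  funext i
  simp

theorem mv_mv (g h : G) (x : Fin (N + 1) → ℂ) : mv D g (mv D h x) = mv D (g * h) x := by
  funext i
  simp only [mv, map_mul, Units.val_mul]
  ring

theorem mv_one (x : Fin (N + 1) → ℂ) : mv D 1 x = x := by
  funext i
  simp [mv]

theorem act_one (F : MvPolynomial (Fin (N + 1)) ℂ) : act D 1 F = F := by
  apply MvPolynomial.funext
  intro x
  rw [eval_act, mv_one]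

theorem act_section {e : ℕ} {χ : G →* ℂˣ} {F : MvPolynomial (Fin (N + 1)) ℂ}
    (h : Section D e χ F) (g : G) : act D g F = ((χ g : ℂˣ) : ℂ) • F := by
  apply MvPolynomial.funext
  intro x
  rw [eval_act, smul_eval]
  exact h.2 g x

theorem exists_E [Finite G] {e : ℕ} (hsep : ∀ g : G, g ≠ 1 → ∃ φ : G →* ℂˣ, φ g ≠ 1)
    (l ν : MvPolynomial (Fin (N + 1)) ℂ →ₗ[ℂ] ℂ)
    (h : ∀ χ : G →* ℂˣ, ∃ F, Section D e χ F ∧ ν F = 0 ∧ l F ≠ 0) :
    ∃ E : MvPolynomial (Fin (N + 1)) ℂ, (∀ g, (act D g E).IsHomogeneous e) ∧ l E = 1 ∧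
      (∀ g, g ≠ 1 → l (act D g E) = 0) ∧ ∀ g, ν (act D g E) = 0 := by
  classical
  have := finite_char G
  have _ := Fintype.ofFinite (G →* ℂˣ)
  choose F hF1 hF2 hF3 using h
  have hcard : (Fintype.card (G →* ℂˣ) : ℂ) ≠ 0 := by
    have : 0 < Fintype.card (G →* ℂˣ) := Fintype.card_pos_iff.2 ⟨1⟩
    exact_mod_cast this.ne'
  have hact : ∀ g, act D g ((Fintype.card (G →* ℂˣ) : ℂ)⁻¹ • ∑ χ, (l (F χ))⁻¹ • F χ) =
      (Fintype.card (G →* ℂˣ) : ℂ)⁻¹ • ∑ χ : G →* ℂˣ, ((l (F χ))⁻¹ * ((χ g : ℂˣ) : ℂ)) • F χ := by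
    intro g
    rw [map_smul, map_sum]
    congr 1
    refine Finset.sum_congr rfl fun χ _ => ?_
    rw [map_smul, act_section D (hF1 χ), smul_smul]
  refine ⟨(Fintype.card (G →* ℂˣ) : ℂ)⁻¹ • ∑ χ, (l (F χ))⁻¹ • F χ, fun g => ?_, ?_,
    fun g hg => ?_, fun g => ?_⟩
  · rw [hact]
    have h1 : ∀ (c : ℂ) (p : MvPolynomial (Fin (N + 1)) ℂ), p.IsHomogeneous e →
        (c • p).IsHomogeneous e := by
      intro c p hp
      rw [smul_eq_C_mul]
      have h2 := (isHomogeneous_C (Fin (N + 1)) c).mul hp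
      rwa [zero_add] at h2
    exact h1 _ _ (IsHomogeneous.sum _ _ _ fun χ _ => h1 _ _ (hF1 χ).1)
  · rw [map_smul, map_sum]
    have h1 : ∀ χ : G →* ℂˣ, l ((l (F χ))⁻¹ • F χ) = 1 := fun χ => by
      rw [map_smul, smul_eq_mul, inv_mul_cancel₀ (hF3 χ)]
    rw [Finset.sum_congr rfl fun χ _ => h1 χ, Finset.sum_const, Finset.card_univ, nsmul_eq_mul,
      mul_one, smul_eq_mul, inv_mul_cancel₀ hcard]
  · rw [hact, map_smul, map_sum]
    have h1 : ∀ χ : G →* ℂˣ, l (((l (F χ))⁻¹ * ((χ g : ℂˣ) : ℂ)) • F χ) = ((χ g : ℂˣ) : ℂ) :=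
      fun χ => by
        rw [map_smul, smul_eq_mul, mul_comm (l (F χ))⁻¹, mul_assoc, inv_mul_cancel₀ (hF3 χ),
          mul_one]
    obtain ⟨φ, hφ⟩ := hsep g hg
    rw [Finset.sum_congr rfl fun χ _ => h1 χ, sum_char φ hφ, smul_zero]
  · rw [hact, map_smul, map_sum]
    have h1 : ∀ χ : G →* ℂˣ, ν (((l (F χ))⁻¹ * ((χ g : ℂˣ) : ℂ)) • F χ) = 0 := fun χ => by
      rw [map_smul, hF2, smul_zero]
    rw [Finset.sum_congr rfl fun χ _ => h1 χ, Finset.sum_const_zero, smul_zero]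

end act

section der

variable {σ : Type} [Fintype σ]

/-- the derivative at `v` in the direction `u` -/
noncomputable def der (v u : σ → ℂ) : MvPolynomial σ ℂ →ₗ[ℂ] ℂ where
  toFun F := ∑ x, eval v (pderiv x F) * u x
  map_add' A B := by
    rw [← Finset.sum_add_distrib]
    exact Finset.sum_congr rfl fun x _ => by rw [map_add, map_add, add_mul]
  map_smul' c A := by
    rw [RingHom.id_apply, smul_eq_mul, Finset.mul_sum]
    exact Finset.sum_congr rfl fun x _ => by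
      rw [(pderiv x).map_smul, smul_eval, mul_assoc]

theorem der_mul (v u : σ → ℂ) (A B : MvPolynomial σ ℂ) :
    der v u (A * B) = der v u A * eval v B + eval v A * der v u B := by
  change ∑ x, eval v (pderiv x (A * B)) * u x = (∑ x, eval v (pderiv x A) * u x) * eval v B +
    eval v A * ∑ x, eval v (pderiv x B) * u x
  rw [Finset.sum_mul, Finset.mul_sum, ← Finset.sum_add_distrib]
  refine Finset.sum_congr rfl fun x _ => ?_
  rw [pderiv_mul, map_add, map_mul, map_mul]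
  ring

theorem der_C (v u : σ → ℂ) (c : ℂ) : der v u (C c) = 0 := by
  change ∑ x, eval v (pderiv x (C c)) * u x = 0
  refine Finset.sum_eq_zero fun x _ => ?_
  rw [pderiv_C, map_zero, zero_mul]

theorem der_X [DecidableEq σ] (v u : σ → ℂ) (y : σ) : der v u (X y) = u y := by
  change ∑ x, eval v (pderiv x (X y)) * u x = u y
  rw [Finset.sum_eq_single y]
  · rw [pderiv_X_self, map_one, one_mul]
  · intro x _ hx
    rw [pderiv_X_of_ne (Ne.symm hx), map_zero, zero_mul]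
  · intro h
    exact (h (Finset.mem_univ y)).elim

theorem der_rename {τ : Type} [Fintype τ] (f : σ → τ) (v u : τ → ℂ) (A : MvPolynomial σ ℂ) :
    der v u (rename f A) = der (v ∘ f) (u ∘ f) A := by
  classical
  induction A using MvPolynomial.induction_on with
  | C c => rw [rename_C, der_C, der_C]
  | add p q hp hq => rw [map_add, map_add, map_add, hp, hq]
  | mul_X p i hp =>
    rw [map_mul, rename_X, der_mul, der_mul, hp, der_X, der_X, eval_X, eval_X, eval_rename]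
    rfl

theorem der_smul_self {n : ℕ} {A : MvPolynomial σ ℂ} (hA : A.IsHomogeneous n) (v : σ → ℂ) (c : ℂ) :
    der v (fun i => c * v i) A = c * n * eval v A := by
  have h1 := congrArg (eval v) hA.sum_X_mul_pderiv
  rw [map_sum, nsmul_eq_mul, map_mul, map_natCast] at h1
  change ∑ x, eval v (pderiv x A) * (c * v x) = _
  rw [mul_assoc, ← h1, Finset.mul_sum]
  refine Finset.sum_congr rfl fun x _ => ?_
  rw [map_mul, eval_X]
  ring

end der

end Pool.Agent.Zk57.TW
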