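import Pool.Agent.Zk57.TW.Tw

/-!
# Very ampleness on twisted products `(Y × P(V)) / G`
-/

set_option autoImplicit false

namespace Pool.Agent.Zk57.TW

open MvPolynomial
open Pool.Agent.Results.MP_e09b14_ag.SmallExponentQuotients (DiagonalCover Section VeryAmple)

variable {G : Type} [Group G] {N M : ℕ} (D : DiagonalCover G N)
  (ρ : Representation ℂ G (Fin (M + 1) → ℂ))

/-- The forms `F(x, z)` of bidegree `(e₁, e₂)` on which `G` acts by the character `χ`. -/
def TSection (e₁ e₂ : ℕ) (χ : G →* ℂˣ) (F : MvPolynomial (Fin (N + 1) ⊕ Fin (M + 1)) ℂ) : Prop :=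
  (∀ (s t : ℂ) (x : Fin (N + 1) → ℂ) (z : Fin (M + 1) → ℂ),
    eval (Sum.elim (fun i => s * x i) (fun j => t * z j)) F =
      s ^ e₁ * t ^ e₂ * eval (Sum.elim x z) F) ∧
  ∀ (g : G) (x : Fin (N + 1) → ℂ) (z : Fin (M + 1) → ℂ),
    eval (Sum.elim (fun i => (D.α i g : ℂ) * x i) (ρ g z)) F = χ g * eval (Sum.elim x z) F

/-- the linear substitution -/
noncomputable def lin (g : G) :
    MvPolynomial (Fin (M + 1)) ℂ →ₐ[ℂ] MvPolynomial (Fin (M + 1)) ℂ :=
  bind₁ fun j => ∑ l, C (LinearMap.toMatrix' (ρ g) j l) * X l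

theorem eval_lin (g : G) (z : Fin (M + 1) → ℂ) (H : MvPolynomial (Fin (M + 1)) ℂ) :
    eval z (lin ρ g H) = eval (ρ g z) H := by
  unfold lin
  rw [eval, eval₂Hom_bind₁]
  congr 2
  funext j
  have h1 : ρ g z j = ((LinearMap.toMatrix' (ρ g)).mulVec z) j := by
    rw [LinearMap.toMatrix'_mulVec]
  rw [h1, Matrix.mulVec, dotProduct]
  simp

theorem lin_one (H : MvPolynomial (Fin (M + 1)) ℂ) : lin ρ 1 H = H := by
  apply MvPolynomial.funext
  intro z
  rw [eval_lin, map_one]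
  rfl

variable [Fintype G]

/-- the averaged product -/
noncomputable def build (χ : G →* ℂˣ) (E : MvPolynomial (Fin (N + 1)) ℂ)
    (H : MvPolynomial (Fin (M + 1)) ℂ) : MvPolynomial (Fin (N + 1) ⊕ Fin (M + 1)) ℂ :=
  ∑ g : G, C ((χ g⁻¹ : ℂˣ) : ℂ) * (rename Sum.inl (act D g E) * rename Sum.inr (lin ρ g H))

theorem eval_build (χ : G →* ℂˣ) (E : MvPolynomial (Fin (N + 1)) ℂ)
    (H : MvPolynomial (Fin (M + 1)) ℂ) (x : Fin (N + 1) → ℂ) (z : Fin (M + 1) → ℂ) :
    eval (Sum.elim x z) (build D ρ χ E H) =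
      ∑ g : G, ((χ g⁻¹ : ℂˣ) : ℂ) * (eval x (act D g E) * eval z (lin ρ g H)) := by
  unfold build
  rw [map_sum]
  refine Finset.sum_congr rfl fun g _ => ?_
  rw [map_mul, map_mul, eval_C, eval_rename, eval_rename, Sum.elim_comp_inl, Sum.elim_comp_inr]

theorem der_build (χ : G →* ℂˣ) (E : MvPolynomial (Fin (N + 1)) ℂ)
    (H : MvPolynomial (Fin (M + 1)) ℂ) (x u : Fin (N + 1) → ℂ) (z w : Fin (M + 1) → ℂ) :
    der (Sum.elim x z) (Sum.elim u w) (build D ρ χ E H) =
      ∑ g : G, ((χ g⁻¹ : ℂˣ) : ℂ) * (der x u (act D g E) * eval z (lin ρ g H) +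
        eval x (act D g E) * der z w (lin ρ g H)) := by
  unfold build
  rw [map_sum]
  refine Finset.sum_congr rfl fun g _ => ?_
  rw [der_mul, der_C, zero_mul, zero_add, eval_C, der_mul, der_rename, der_rename, eval_rename,
    eval_rename, Sum.elim_comp_inl, Sum.elim_comp_inr, Sum.elim_comp_inl, Sum.elim_comp_inr]

theorem tsection_build {e₁ e₂ : ℕ} (χ : G →* ℂˣ) {E : MvPolynomial (Fin (N + 1)) ℂ}
    (hE : ∀ g, (act D g E).IsHomogeneous e₁)
    {H : MvPolynomial (Fin (M + 1)) ℂ} (hH : H.IsHomogeneous e₂) :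
    TSection D ρ e₁ e₂ χ (build D ρ χ E H) := by
  refine ⟨?_, ?_⟩
  · intro s t x z
    rw [eval_build, eval_build, Finset.mul_sum]
    refine Finset.sum_congr rfl fun g _ => ?_
    rw [Pool.Agent.TH144.MB.eval_smul' (hE g), eval_lin, eval_lin]
    have h1 : ρ g (fun j => t * z j) = fun j => t * ρ g z j := by
      have h2 : (fun j => t * z j) = t • z := rfl
      rw [h2, map_smul]
      rfl
    rw [h1, Pool.Agent.TH144.MB.eval_smul' hH]
    ring
  · intro h x z
    rw [eval_build, eval_build, Finset.mul_sum]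
    refine Fintype.sum_equiv (Equiv.mulRight h) _ _ fun g => ?_
    have h1 : eval (fun i => (D.α i h : ℂ) * x i) (act D g E) = eval x (act D (g * h) E) := by
      rw [eval_act, eval_act, ← mv_mv]
      rfl
    have h2 : eval (ρ h z) (lin ρ g H) = eval z (lin ρ (g * h) H) := by
      rw [eval_lin, eval_lin, map_mul]
      rfl
    have h3 : ((χ g⁻¹ : ℂˣ) : ℂ) = (χ h : ℂ) * ((χ (g * h)⁻¹ : ℂˣ) : ℂ) := by
      rw [← Units.val_mul, ← map_mul]
      congr 2
      group
    rw [Equiv.coe_mulRight, h1, h2, h3]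
    ring

/-- only the term of `1` is left -/
theorem sum_one (χ : G →* ℂˣ) (f : G → ℂ) (hf : ∀ g, g ≠ 1 → f g = 0) :
    ∑ g : G, ((χ g⁻¹ : ℂˣ) : ℂ) * f g = f 1 := by
  classical
  rw [Finset.sum_eq_single 1]
  · simp
  · intro g _ hg
    rw [hf g hg, mul_zero]
  · intro h
    exact (h (Finset.mem_univ _)).elim

/-- a form which vanishes at `z` and not at `w` -/
theorem exists_form {e : ℕ} (he : 1 ≤ e) {z w : Fin (M + 1) → ℂ} (hz : z ≠ 0)
    (hw : ¬ ∃ c : ℂ, ∀ j, w j = c * z j) : ∃ H : MvPolynomial (Fin (M + 1)) ℂ,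
      H.IsHomogeneous e ∧ eval z H = 0 ∧ eval w H ≠ 0 := by
  obtain ⟨i, hi⟩ : ∃ i, z i ≠ 0 := by
    by_contra hc
    push Not at hc
    exact hz (funext hc)
  obtain ⟨j, hj⟩ : ∃ j, z i * w j - z j * w i ≠ 0 := by
    by_contra hc
    push Not at hc
    refine hw ⟨w i / z i, fun j => ?_⟩
    field_simp
    linear_combination hc j
  obtain ⟨l, hl⟩ : ∃ l, w l ≠ 0 := by
    by_contra hc
    push Not at hc
    exact hj (by rw [hc, hc, mul_zero, mul_zero, sub_zero])
  refine ⟨(C (z i) * X j - C (z j) * X i) * X l ^ (e - 1), ?_, ?_, ?_⟩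
  · have h1 : (C (z i) * X j - C (z j) * X i : MvPolynomial (Fin (M + 1)) ℂ).IsHomogeneous 1 := by
      have h2 := (isHomogeneous_C (Fin (M + 1)) (z i)).mul (isHomogeneous_X ℂ j)
      have h3 := (isHomogeneous_C (Fin (M + 1)) (z j)).mul (isHomogeneous_X ℂ i)
      rw [zero_add] at h2 h3
      exact h2.sub h3
    have h2 := h1.mul ((isHomogeneous_X ℂ l).pow (e - 1))
    have h3 : 1 + 1 * (e - 1) = e := by omega
    rwa [h3] at h2
  · simp [mul_comm]
  · simp only [map_mul, map_sub, eval_C, eval_X, map_pow]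
    exact mul_ne_zero hj (pow_ne_zero _ hl)

/-- a form which vanishes at `z` and whose derivative in the direction `w` does not vanish -/
theorem exists_form' {e : ℕ} (he : 1 ≤ e) {z w : Fin (M + 1) → ℂ} (hz : z ≠ 0)
    (hw : ¬ ∃ c : ℂ, ∀ j, w j = c * z j) : ∃ H : MvPolynomial (Fin (M + 1)) ℂ,
      H.IsHomogeneous e ∧ eval z H = 0 ∧ der z w H ≠ 0 := by
  obtain ⟨i, hi⟩ : ∃ i, z i ≠ 0 := by
    by_contra hc
    push Not at hc
    exact hz (funext hc)
  obtain ⟨j, hj⟩ : ∃ j, z i * w j - z j * w i ≠ 0 := by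
    by_contra hc
    push Not at hc
    refine hw ⟨w i / z i, fun j => ?_⟩
    field_simp
    linear_combination hc j
  refine ⟨(C (z i) * X j - C (z j) * X i) * X i ^ (e - 1), ?_, ?_, ?_⟩
  · have h1 : (C (z i) * X j - C (z j) * X i : MvPolynomial (Fin (M + 1)) ℂ).IsHomogeneous 1 := by
      have h2 := (isHomogeneous_C (Fin (M + 1)) (z i)).mul (isHomogeneous_X ℂ j)
      have h3 := (isHomogeneous_C (Fin (M + 1)) (z j)).mul (isHomogeneous_X ℂ i)
      rw [zero_add] at h2 h3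
      exact h2.sub h3
    have h2 := h1.mul ((isHomogeneous_X ℂ i).pow (e - 1))
    have h3 : 1 + 1 * (e - 1) = e := by omega
    rwa [h3] at h2
  · simp [mul_comm]
  · have h1 : eval z (C (z i) * X j - C (z j) * X i : MvPolynomial (Fin (M + 1)) ℂ) = 0 := by
      simp [mul_comm]
    rw [der_mul, h1, zero_mul, add_zero, map_sub, der_mul, der_mul, der_C, der_C, der_X, der_X,
      eval_C, eval_C, map_pow, zero_mul, zero_mul, zero_add, zero_add, eval_X]
    exact mul_ne_zero hj (pow_ne_zero _ hi)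

/-- The forms of bidegree `(e₁, e₂)` and character `χ` embed the twisted product. -/
def TVeryAmple (e₁ e₂ : ℕ) (χ : G →* ℂˣ) : Prop :=
  (∀ (y : Fin (N + 1) → ℂ) (z : Fin (M + 1) → ℂ), y ≠ 0 → z ≠ 0 → (∀ p ∈ D.I, eval y p = 0) →
    ∃ F, TSection D ρ e₁ e₂ χ F ∧ eval (Sum.elim y z) F ≠ 0) ∧
  (∀ (y y' : Fin (N + 1) → ℂ) (z z' : Fin (M + 1) → ℂ), y ≠ 0 → y' ≠ 0 → z ≠ 0 → z' ≠ 0 →
    (∀ p ∈ D.I, eval y p = 0) → (∀ p ∈ D.I, eval y' p = 0) →
    (¬ ∃ (g : G) (c c' : ℂ), (∀ i, y' i = c * (D.α i g * y i)) ∧ ∀ j, z' j = c' * ρ g z j) →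
    ∃ F, TSection D ρ e₁ e₂ χ F ∧ eval (Sum.elim y z) F = 0 ∧ eval (Sum.elim y' z') F ≠ 0) ∧
  (∀ (y u : Fin (N + 1) → ℂ) (z w : Fin (M + 1) → ℂ), y ≠ 0 → z ≠ 0 →
    (∀ p ∈ D.I, eval y p = 0) → (∀ p ∈ D.I, ∑ i, eval y (pderiv i p) * u i = 0) →
    (¬ ∃ c c' : ℂ, (∀ i, u i = c * y i) ∧ ∀ j, w j = c' * z j) →
    ∃ F, TSection D ρ e₁ e₂ χ F ∧ eval (Sum.elim y z) F = 0 ∧
      der (Sum.elim y z) (Sum.elim u w) F ≠ 0)

theorem exists_pow {e : ℕ} {z : Fin (M + 1) → ℂ} (hz : z ≠ 0) :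
    ∃ H : MvPolynomial (Fin (M + 1)) ℂ, H.IsHomogeneous e ∧ eval z H ≠ 0 := by
  obtain ⟨i, hi⟩ : ∃ i, z i ≠ 0 := by
    by_contra hc
    push Not at hc
    exact hz (funext hc)
  refine ⟨X i ^ e, ?_, ?_⟩
  · have h := (isHomogeneous_X ℂ i).pow e
    rwa [one_mul] at h
  · rw [map_pow, eval_X]
    exact pow_ne_zero _ hi

theorem twist {e₁ e₂ : ℕ} (h : ∀ χ : G →* ℂˣ, VeryAmple D e₁ χ) (he₂ : 1 ≤ e₂) (χ : G →* ℂˣ) :
    TVeryAmple D ρ e₁ e₂ χ := by
  classical
  have hsep : ∀ y : Fin (N + 1) → ℂ, y ≠ 0 → (∀ p ∈ D.I, eval y p = 0) →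
      ∀ g : G, g ≠ 1 → ∃ φ : G →* ℂˣ, φ g ≠ 1 := by
    intro y hy0 hy g hg
    by_contra hc
    push Not at hc
    refine hg (D.free y hy0 hy g 1 fun i => ?_)
    rw [hc (D.α i), Units.val_one]
  -- evaluation as a linear map
  let ev : (Fin (N + 1) → ℂ) → MvPolynomial (Fin (N + 1)) ℂ →ₗ[ℂ] ℂ := fun y =>
    (aeval y : MvPolynomial (Fin (N + 1)) ℂ →ₐ[ℂ] ℂ).toLinearMap
  have hev : ∀ y F, ev y F = eval y F := fun y F => by
    change aeval y F = eval y F
    rw [aeval_def, eval, Algebra.algebraMap_self]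
    rfl
  refine ⟨?_, ?_, ?_⟩
  · intro y z hy0 hz0 hy
    obtain ⟨E, hE1, hE2, hE3, -⟩ := exists_E D (e := e₁) (hsep y hy0 hy) (ev y) 0 fun χ => by
      obtain ⟨F, h1, h2⟩ := (h χ).1 y hy0 hy
      exact ⟨F, h1, rfl, by rwa [hev]⟩
    obtain ⟨H, hH1, hH2⟩ := exists_pow (e := e₂) hz0
    refine ⟨_, tsection_build D ρ χ hE1 hH1, ?_⟩
    rw [eval_build, sum_one χ (fun g => eval y (act D g E) * eval z (lin ρ g H)) fun g hg => by
      have h1 := hE3 g hg
      rw [hev] at h1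
      rw [h1, zero_mul]]
    rw [hev] at hE2
    rw [act_one, lin_one, hE2, one_mul]
    exact hH2
  · intro y y' z z' hy0 hy0' hz0 hz0' hy hy' hne
    by_cases horb : ∃ (g : G) (c : ℂ), ∀ i, y' i = c * (D.α i g * y i)
    · obtain ⟨g₀, c, hc⟩ := horb
      have hc0 : c ≠ 0 := by
        rintro rfl
        exact hy0' (funext fun i => by rw [hc i, zero_mul]; rfl)
      obtain ⟨E, hE1, hE2, hE3, -⟩ := exists_E D (e := e₁) (hsep y hy0 hy) (ev y) 0 fun χ => by
        obtain ⟨F, h1, h2⟩ := (h χ).1 y hy0 hy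
        exact ⟨F, h1, rfl, by rwa [hev]⟩
      have hz'' : ¬ ∃ c' : ℂ, ∀ j, ρ g₀⁻¹ z' j = c' * z j := by
        rintro ⟨c', hc'⟩
        refine hne ⟨g₀, c, c', hc, fun j => ?_⟩
        have h1 : ρ g₀⁻¹ z' = c' • z := funext hc'
        have h2 : ρ g₀ (ρ g₀⁻¹ z') = z' := by
          rw [← Module.End.mul_apply, ← map_mul, mul_inv_cancel, map_one]
          rfl
        rw [← h2, h1, map_smul]
        rfl
      obtain ⟨H, hH1, hH2, hH3⟩ := exists_form he₂ hz0 hz''
      have hval : ∀ z₁, eval (Sum.elim y z₁) (build D ρ χ E H) = eval z₁ H := by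
        intro z₁
        rw [eval_build, sum_one χ (fun g => eval y (act D g E) * eval z₁ (lin ρ g H))
          fun g hg => by
            have h1 := hE3 g hg
            rw [hev] at h1
            rw [h1, zero_mul]]
        rw [hev] at hE2
        rw [act_one, lin_one, hE2, one_mul]
      have hT := tsection_build D ρ χ hE1 hH1
      refine ⟨_, hT, by rw [hval, hH2], ?_⟩
      have h2 : ρ g₀ (ρ g₀⁻¹ z') = z' := by
        rw [← Module.End.mul_apply, ← map_mul, mul_inv_cancel, map_one]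
        rfl
      have h3 : y' = fun i => (D.α i g₀ : ℂ) * (c * y i) := by
        funext i
        rw [hc i]
        ring
      have h4 := hT.2 g₀ (fun i => c * y i) (ρ g₀⁻¹ z')
      rw [h2, ← h3] at h4
      rw [h4]
      have h5 := hT.1 c 1 y (ρ g₀⁻¹ z')
      simp only [one_mul, one_pow, mul_one] at h5
      have h6 : eval (Sum.elim (fun i => c * y i) (ρ g₀⁻¹ z')) (build D ρ χ E H) =
          c ^ e₁ * eval (Sum.elim y (ρ g₀⁻¹ z')) (build D ρ χ E H) := h5
      rw [h6, hval]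
      exact mul_ne_zero (Units.ne_zero _) (mul_ne_zero (pow_ne_zero _ hc0) hH3)
    · obtain ⟨E, hE1, hE2, hE3, hE4⟩ := exists_E D (e := e₁) (hsep y hy0 hy) (ev y') (ev y)
        fun χ => by
          obtain ⟨F, h1, h2, h3⟩ := (h χ).2.1 y y' hy0 hy0' hy hy' horb
          exact ⟨F, h1, by rwa [hev], by rwa [hev]⟩
      obtain ⟨H, hH1, hH2⟩ := exists_pow (e := e₂) hz0'
      refine ⟨_, tsection_build D ρ χ hE1 hH1, ?_, ?_⟩
      · rw [eval_build]
        refine Finset.sum_eq_zero fun g _ => ?_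
        have h1 := hE4 g
        rw [hev] at h1
        rw [h1, zero_mul, mul_zero]
      · rw [eval_build, sum_one χ (fun g => eval y' (act D g E) * eval z' (lin ρ g H))
          fun g hg => by
            have h1 := hE3 g hg
            rw [hev] at h1
            rw [h1, zero_mul]]
        rw [hev] at hE2
        rw [act_one, lin_one, hE2, one_mul]
        exact hH2
  · intro y u z w hy0 hz0 hy hu hne
    by_cases hdir : ∃ c : ℂ, ∀ i, u i = c * y i
    · obtain ⟨c, hc⟩ := hdir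
      obtain ⟨E, hE1, hE2, hE3, -⟩ := exists_E D (e := e₁) (hsep y hy0 hy) (ev y) 0 fun χ => by
        obtain ⟨F, h1, h2⟩ := (h χ).1 y hy0 hy
        exact ⟨F, h1, rfl, by rwa [hev]⟩
      obtain ⟨H, hH1, hH2, hH3⟩ := exists_form' he₂ hz0 (fun ⟨c', hc'⟩ => hne ⟨c, c', hc, hc'⟩)
      rw [hev] at hE2
      have hE3' : ∀ g, g ≠ 1 → eval y (act D g E) = 0 := fun g hg => by
        have h1 := hE3 g hg
        rwa [hev] at h1
      have huc : u = fun i => c * y i := funext hc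
      refine ⟨_, tsection_build D ρ χ hE1 hH1, ?_, ?_⟩
      · rw [eval_build, sum_one χ (fun g => eval y (act D g E) * eval z (lin ρ g H))
          fun g hg => by rw [hE3' g hg, zero_mul]]
        rw [act_one, lin_one, hH2, mul_zero]
      · rw [der_build, huc, sum_one χ (fun g => der y (fun i => c * y i) (act D g E) *
            eval z (lin ρ g H) + eval y (act D g E) * der z w (lin ρ g H)) fun g hg => by
            rw [der_smul_self (hE1 g), hE3' g hg, mul_zero, zero_mul, zero_mul, add_zero]]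
        rw [act_one, lin_one, hH2, mul_zero, zero_add, hE2, one_mul]
        exact hH3
    · obtain ⟨E, hE1, hE2, hE3, hE4⟩ := exists_E D (e := e₁) (hsep y hy0 hy) (der y u) (ev y)
        fun χ => by
          obtain ⟨F, h1, h2, h3⟩ := (h χ).2.2 y u hy0 hy hu hdir
          exact ⟨F, h1, by rwa [hev], h3⟩
      have hE4' : ∀ g, eval y (act D g E) = 0 := fun g => by
        have h1 := hE4 g
        rwa [hev] at h1
      obtain ⟨H, hH1, hH2⟩ := exists_pow (e := e₂) hz0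
      refine ⟨_, tsection_build D ρ χ hE1 hH1, ?_, ?_⟩
      · rw [eval_build]
        refine Finset.sum_eq_zero fun g _ => ?_
        rw [hE4' g, zero_mul, mul_zero]
      · rw [der_build, sum_one χ (fun g => der y u (act D g E) *
            eval z (lin ρ g H) + eval y (act D g E) * der z w (lin ρ g H)) fun g hg => by
            rw [hE3 g hg, hE4' g, zero_mul, zero_mul, add_zero]]
        have h1 := hE4' 1
        rw [act_one] at h1
        rw [act_one, lin_one, hE2, one_mul, h1, zero_mul, add_zero]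
        exact hH2

end Pool.Agent.Zk57.TW
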