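import Pool.Agent.Zk57.TW.Tw2
import Pool.Agent.N212.FQ.F

/-!
# Very ampleness on twisted products, general finite groups
-/

set_option autoImplicit false

namespace Pool.Agent.Zk57.TW

open MvPolynomial
open Pool.Agent.N212.FQ (subst eval_subst subst_isHomogeneous der_subst
  eval_smul_of_isHomogeneous)

variable {G : Type} [Group G] {N M : ℕ} (σ : Representation ℂ G (Fin (N + 1) → ℂ))
  (ρ : Representation ℂ G (Fin (M + 1) → ℂ))

/-- The forms `F(x, z)` of bidegree `(e₁, e₂)` on which `G` acts by the character `χ`. -/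
def GSection (e₁ e₂ : ℕ) (χ : G →* ℂˣ) (F : MvPolynomial (Fin (N + 1) ⊕ Fin (M + 1)) ℂ) : Prop :=
  (∀ (s t : ℂ) (x : Fin (N + 1) → ℂ) (z : Fin (M + 1) → ℂ),
    eval (Sum.elim (fun i => s * x i) (fun j => t * z j)) F =
      s ^ e₁ * t ^ e₂ * eval (Sum.elim x z) F) ∧
  ∀ (g : G) (x : Fin (N + 1) → ℂ) (z : Fin (M + 1) → ℂ),
    eval (Sum.elim (σ g x) (ρ g z)) F = χ g * eval (Sum.elim x z) F

theorem subst_one (E : MvPolynomial (Fin (N + 1)) ℂ) : subst (σ 1) E = E := by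
  apply MvPolynomial.funext
  intro x
  rw [eval_subst, map_one]
  rfl

theorem subst_scalar {g : G} {c : ℂ} (h : ∀ x, σ g x = c • x) {E : MvPolynomial (Fin (N + 1)) ℂ}
    {e : ℕ} (hE : E.IsHomogeneous e) : subst (σ g) E = (c ^ e) • E := by
  apply MvPolynomial.funext
  intro x
  rw [eval_subst, h, eval_smul_of_isHomogeneous hE, smul_eval]

variable [Fintype G]

/-- the averaged product -/
noncomputable def gb (χ : G →* ℂˣ) (E : MvPolynomial (Fin (N + 1)) ℂ)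
    (H : MvPolynomial (Fin (M + 1)) ℂ) : MvPolynomial (Fin (N + 1) ⊕ Fin (M + 1)) ℂ :=
  ∑ g : G, C ((χ g⁻¹ : ℂˣ) : ℂ) *
    (rename Sum.inl (subst (σ g) E) * rename Sum.inr (subst (ρ g) H))

theorem eval_gb (χ : G →* ℂˣ) (E : MvPolynomial (Fin (N + 1)) ℂ)
    (H : MvPolynomial (Fin (M + 1)) ℂ) (x : Fin (N + 1) → ℂ) (z : Fin (M + 1) → ℂ) :
    eval (Sum.elim x z) (gb σ ρ χ E H) =
      ∑ g : G, ((χ g⁻¹ : ℂˣ) : ℂ) * (eval x (subst (σ g) E) * eval z (subst (ρ g) H)) := by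
  unfold gb
  rw [map_sum]
  refine Finset.sum_congr rfl fun g _ => ?_
  rw [map_mul, map_mul, eval_C, eval_rename, eval_rename, Sum.elim_comp_inl, Sum.elim_comp_inr]

theorem der_gb (χ : G →* ℂˣ) (E : MvPolynomial (Fin (N + 1)) ℂ)
    (H : MvPolynomial (Fin (M + 1)) ℂ) (x u : Fin (N + 1) → ℂ) (z w : Fin (M + 1) → ℂ) :
    der (Sum.elim x z) (Sum.elim u w) (gb σ ρ χ E H) =
      ∑ g : G, ((χ g⁻¹ : ℂˣ) : ℂ) * (der x u (subst (σ g) E) * eval z (subst (ρ g) H) +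
        eval x (subst (σ g) E) * der z w (subst (ρ g) H)) := by
  unfold gb
  rw [map_sum]
  refine Finset.sum_congr rfl fun g _ => ?_
  rw [der_mul, der_C, zero_mul, zero_add, eval_C, der_mul, der_rename, der_rename, eval_rename,
    eval_rename, Sum.elim_comp_inl, Sum.elim_comp_inr, Sum.elim_comp_inl, Sum.elim_comp_inr]

theorem gsection_gb {e₁ e₂ : ℕ} (χ : G →* ℂˣ) {E : MvPolynomial (Fin (N + 1)) ℂ}
    (hE : E.IsHomogeneous e₁) {H : MvPolynomial (Fin (M + 1)) ℂ} (hH : H.IsHomogeneous e₂) :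
    GSection σ ρ e₁ e₂ χ (gb σ ρ χ E H) := by
  refine ⟨?_, ?_⟩
  · intro s t x z
    rw [eval_gb, eval_gb, Finset.mul_sum]
    refine Finset.sum_congr rfl fun g _ => ?_
    have h1 : eval (fun i => s * x i) (subst (σ g) E) = s ^ e₁ * eval x (subst (σ g) E) :=
      eval_smul_of_isHomogeneous (subst_isHomogeneous (σ g) hE) s x
    have h2 : eval (fun j => t * z j) (subst (ρ g) H) = t ^ e₂ * eval z (subst (ρ g) H) :=
      eval_smul_of_isHomogeneous (subst_isHomogeneous (ρ g) hH) t z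
    rw [h1, h2]
    ring
  · intro h x z
    rw [eval_gb, eval_gb, Finset.mul_sum]
    refine Fintype.sum_equiv (Equiv.mulRight h) _ _ fun g => ?_
    have h1 : eval (σ h x) (subst (σ g) E) = eval x (subst (σ (g * h)) E) := by
      rw [eval_subst, eval_subst, map_mul]
      rfl
    have h2 : eval (ρ h z) (subst (ρ g) H) = eval z (subst (ρ (g * h)) H) := by
      rw [eval_subst, eval_subst, map_mul]
      rfl
    have h3 : ((χ g⁻¹ : ℂˣ) : ℂ) = (χ h : ℂ) * ((χ (g * h)⁻¹ : ℂˣ) : ℂ) := by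
      rw [← Units.val_mul, ← map_mul]
      congr 2
      group
    rw [Equiv.coe_mulRight, h1, h2, h3]
    ring

/-- only the terms of the scalars are left -/
theorem sum_S (χ : G →* ℂˣ) (S : G → Prop) (h1 : S 1) (f : G → ℂ) (hf : ∀ g, ¬ S g → f g = 0)
    (hs : ∀ g, S g → f g = (χ g : ℂ) * f 1) :
    ∃ c : ℂ, c ≠ 0 ∧ ∑ g : G, ((χ g⁻¹ : ℂˣ) : ℂ) * f g = c * f 1 := by
  classical
  refine ⟨((Finset.univ.filter S).card : ℂ), ?_, ?_⟩
  · have : 0 < (Finset.univ.filter S).card :=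
      Finset.card_pos.2 ⟨1, Finset.mem_filter.2 ⟨Finset.mem_univ _, h1⟩⟩
    exact_mod_cast this.ne'
  · have h2 : ∀ g, ((χ g⁻¹ : ℂˣ) : ℂ) * f g = if S g then f 1 else 0 := by
      intro g
      split_ifs with hg
      · rw [hs g hg, ← mul_assoc, ← Units.val_mul, ← map_mul, inv_mul_cancel, map_one,
          Units.val_one, one_mul]
      · rw [hf g hg, mul_zero]
    rw [Finset.sum_congr rfl fun g _ => h2 g, ← Finset.sum_filter, Finset.sum_const, nsmul_eq_mul]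

/-- The forms of bidegree `(e₁, e₂)` and character `χ` embed the twisted product. -/
def GVeryAmple (I : Ideal (MvPolynomial (Fin (N + 1)) ℂ)) (e₁ e₂ : ℕ) (χ : G →* ℂˣ) : Prop :=
  (∀ (y : Fin (N + 1) → ℂ) (z : Fin (M + 1) → ℂ), y ≠ 0 → z ≠ 0 → (∀ p ∈ I, eval y p = 0) →
    ∃ F, GSection σ ρ e₁ e₂ χ F ∧ eval (Sum.elim y z) F ≠ 0) ∧
  (∀ (y y' : Fin (N + 1) → ℂ) (z z' : Fin (M + 1) → ℂ), y ≠ 0 → y' ≠ 0 → z ≠ 0 → z' ≠ 0 →
    (∀ p ∈ I, eval y p = 0) → (∀ p ∈ I, eval y' p = 0) →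
    (¬ ∃ (g : G) (c c' : ℂ), (∀ i, y' i = c * σ g y i) ∧ ∀ j, z' j = c' * ρ g z j) →
    ∃ F, GSection σ ρ e₁ e₂ χ F ∧ eval (Sum.elim y z) F = 0 ∧ eval (Sum.elim y' z') F ≠ 0) ∧
  (∀ (y u : Fin (N + 1) → ℂ) (z w : Fin (M + 1) → ℂ), y ≠ 0 → z ≠ 0 →
    (∀ p ∈ I, eval y p = 0) → (∀ p ∈ I, ∑ i, eval y (pderiv i p) * u i = 0) →
    (¬ ∃ c c' : ℂ, (∀ i, u i = c * y i) ∧ ∀ j, w j = c' * z j) →
    ∃ F, GSection σ ρ e₁ e₂ χ F ∧ eval (Sum.elim y z) F = 0 ∧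
      der (Sum.elim y z) (Sum.elim u w) F ≠ 0)

theorem gtwist {I : Ideal (MvPolynomial (Fin (N + 1)) ℂ)} {e₁ e₂ : ℕ} (he₂ : 1 ≤ e₂)
    (χ : G →* ℂˣ) (S : G → Prop) (hS1 : S 1)
    (hS : ∀ g, S g → ∃ c₁ c₂ : ℂ, (∀ x, σ g x = c₁ • x) ∧ (∀ z, ρ g z = c₂ • z) ∧
      (χ g : ℂ) = c₁ ^ e₁ * c₂ ^ e₂)
    (ha : ∀ y : Fin (N + 1) → ℂ, y ≠ 0 → (∀ p ∈ I, eval y p = 0) →
      ∃ E : MvPolynomial (Fin (N + 1)) ℂ, E.IsHomogeneous e₁ ∧ eval y E ≠ 0 ∧
        ∀ g, ¬ S g → eval (σ g y) E = 0)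
    (hb : ∀ y y' : Fin (N + 1) → ℂ, y ≠ 0 → y' ≠ 0 → (∀ p ∈ I, eval y p = 0) →
      (∀ p ∈ I, eval y' p = 0) → (¬ ∃ (g : G) (c : ℂ), ∀ i, y' i = c * σ g y i) →
      ∃ E : MvPolynomial (Fin (N + 1)) ℂ, E.IsHomogeneous e₁ ∧ eval y' E ≠ 0 ∧
        (∀ g, ¬ S g → eval (σ g y') E = 0) ∧ ∀ g, eval (σ g y) E = 0)
    (hc : ∀ y u : Fin (N + 1) → ℂ, y ≠ 0 → (∀ p ∈ I, eval y p = 0) →
      (∀ p ∈ I, ∑ i, eval y (pderiv i p) * u i = 0) → (¬ ∃ c : ℂ, ∀ i, u i = c * y i) →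
      ∃ E : MvPolynomial (Fin (N + 1)) ℂ, E.IsHomogeneous e₁ ∧ der y u E ≠ 0 ∧
        (∀ g, eval (σ g y) E = 0) ∧ ∀ g, ¬ S g → der (σ g y) (σ g u) E = 0) :
    GVeryAmple σ ρ I e₁ e₂ χ := by
  classical
  -- the value of the averaged product
  have hval : ∀ (E : MvPolynomial (Fin (N + 1)) ℂ) (H : MvPolynomial (Fin (M + 1)) ℂ)
      (y : Fin (N + 1) → ℂ), E.IsHomogeneous e₁ → H.IsHomogeneous e₂ →
      (∀ g, ¬ S g → eval (σ g y) E = 0) → ∃ c : ℂ, c ≠ 0 ∧ ∀ z : Fin (M + 1) → ℂ,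
        eval (Sum.elim y z) (gb σ ρ χ E H) = c * (eval y E * eval z H) := by
    intro E H y hE hH h0
    have key : ∀ z : Fin (M + 1) → ℂ, ∑ g : G, ((χ g⁻¹ : ℂˣ) : ℂ) *
        (eval y (subst (σ g) E) * eval z (subst (ρ g) H)) =
        ((Finset.univ.filter S).card : ℂ) * (eval y E * eval z H) := by
      intro z
      have h2 : ∀ g, ((χ g⁻¹ : ℂˣ) : ℂ) * (eval y (subst (σ g) E) * eval z (subst (ρ g) H)) =
          if S g then eval y E * eval z H else 0 := by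
        intro g
        split_ifs with hg
        · obtain ⟨c₁, c₂, h3, h4, h5⟩ := hS g hg
          rw [subst_scalar σ h3 hE, subst_scalar ρ h4 hH, smul_eval, smul_eval]
          have h6 : ((χ g⁻¹ : ℂˣ) : ℂ) * (c₁ ^ e₁ * c₂ ^ e₂) = 1 := by
            rw [← h5, ← Units.val_mul, ← map_mul, inv_mul_cancel, map_one, Units.val_one]
          linear_combination (eval y E * eval z H) * h6
        · rw [eval_subst, h0 g hg, zero_mul, mul_zero]
      rw [Finset.sum_congr rfl fun g _ => h2 g, ← Finset.sum_filter, Finset.sum_const,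
        nsmul_eq_mul]
    refine ⟨((Finset.univ.filter S).card : ℂ), ?_, fun z => by rw [eval_gb, key z]⟩
    have : 0 < (Finset.univ.filter S).card :=
      Finset.card_pos.2 ⟨1, Finset.mem_filter.2 ⟨Finset.mem_univ _, hS1⟩⟩
    exact_mod_cast this.ne'
  have hvan : ∀ (E : MvPolynomial (Fin (N + 1)) ℂ) (H : MvPolynomial (Fin (M + 1)) ℂ)
      (y : Fin (N + 1) → ℂ) (z : Fin (M + 1) → ℂ), (∀ g, eval (σ g y) E = 0) →
        eval (Sum.elim y z) (gb σ ρ χ E H) = 0 := by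
    intro E H y z h0
    rw [eval_gb]
    refine Finset.sum_eq_zero fun g _ => ?_
    rw [eval_subst, h0, zero_mul, mul_zero]
  have hder : ∀ (E : MvPolynomial (Fin (N + 1)) ℂ) (H : MvPolynomial (Fin (M + 1)) ℂ)
      (y u : Fin (N + 1) → ℂ) (z w : Fin (M + 1) → ℂ), E.IsHomogeneous e₁ → H.IsHomogeneous e₂ →
      (∀ g, ¬ S g → eval (σ g y) E = 0 ∧ der y u (subst (σ g) E) = 0) →
      ∃ c : ℂ, c ≠ 0 ∧ der (Sum.elim y z) (Sum.elim u w) (gb σ ρ χ E H) =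
        c * (der y u E * eval z H + eval y E * der z w H) := by
    intro E H y u z w hE hH h0
    have h2 : ∀ g, ((χ g⁻¹ : ℂˣ) : ℂ) * (der y u (subst (σ g) E) * eval z (subst (ρ g) H) +
        eval y (subst (σ g) E) * der z w (subst (ρ g) H)) =
        if S g then der y u E * eval z H + eval y E * der z w H else 0 := by
      intro g
      split_ifs with hg
      · obtain ⟨c₁, c₂, h3, h4, h5⟩ := hS g hg
        rw [subst_scalar σ h3 hE, subst_scalar ρ h4 hH, smul_eval, smul_eval, map_smul, map_smul,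
          smul_eq_mul, smul_eq_mul]
        have h6 : ((χ g⁻¹ : ℂˣ) : ℂ) * (c₁ ^ e₁ * c₂ ^ e₂) = 1 := by
          rw [← h5, ← Units.val_mul, ← map_mul, inv_mul_cancel, map_one, Units.val_one]
        linear_combination (der y u E * eval z H + eval y E * der z w H) * h6
      · have h7 : eval y (subst (σ g) E) = 0 := by rw [eval_subst, (h0 g hg).1]
        rw [h7, (h0 g hg).2, zero_mul, zero_mul, add_zero, mul_zero]
    refine ⟨((Finset.univ.filter S).card : ℂ), ?_, ?_⟩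
    · have : 0 < (Finset.univ.filter S).card :=
        Finset.card_pos.2 ⟨1, Finset.mem_filter.2 ⟨Finset.mem_univ _, hS1⟩⟩
      exact_mod_cast this.ne'
    · rw [der_gb, Finset.sum_congr rfl fun g _ => h2 g, ← Finset.sum_filter, Finset.sum_const,
        nsmul_eq_mul]
  refine ⟨?_, ?_, ?_⟩
  · intro y z hy0 hz0 hy
    obtain ⟨E, hE1, hE2, hE3⟩ := ha y hy0 hy
    obtain ⟨H, hH1, hH2⟩ := exists_pow (e := e₂) hz0
    obtain ⟨c, hc0, hc⟩ := hval E H y hE1 hH1 hE3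
    exact ⟨_, gsection_gb σ ρ χ hE1 hH1, by
      rw [hc]
      exact mul_ne_zero hc0 (mul_ne_zero hE2 hH2)⟩
  · intro y y' z z' hy0 hy0' hz0 hz0' hy hy' hne
    by_cases horb : ∃ (g : G) (c : ℂ), ∀ i, y' i = c * σ g y i
    · obtain ⟨g₀, c, hc⟩ := horb
      have hc0 : c ≠ 0 := by
        rintro rfl
        exact hy0' (funext fun i => by rw [hc i, zero_mul]; rfl)
      obtain ⟨E, hE1, hE2, hE3⟩ := ha y hy0 hy
      have h2 : ρ g₀ (ρ g₀⁻¹ z') = z' := by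
        rw [← Module.End.mul_apply, ← map_mul, mul_inv_cancel, map_one]
        rfl
      have hz'' : ¬ ∃ c' : ℂ, ∀ j, ρ g₀⁻¹ z' j = c' * z j := by
        rintro ⟨c', hc'⟩
        refine hne ⟨g₀, c, c', hc, fun j => ?_⟩
        have h1 : ρ g₀⁻¹ z' = c' • z := funext hc'
        rw [← h2, h1, map_smul]
        rfl
      obtain ⟨H, hH1, hH2, hH3⟩ := exists_form he₂ hz0 hz''
      obtain ⟨a, ha0, ha1⟩ := hval E H y hE1 hH1 hE3
      have hT := gsection_gb σ ρ χ hE1 hH1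
      refine ⟨_, hT, by rw [ha1, hH2, mul_zero, mul_zero], ?_⟩
      have h3 : y' = σ g₀ (fun i => c * y i) := by
        have h31 : (fun i => c * y i) = c • y := rfl
        rw [h31, map_smul]
        exact funext hc
      have h4 := hT.2 g₀ (fun i => c * y i) (ρ g₀⁻¹ z')
      rw [h2, ← h3] at h4
      rw [h4]
      have h5 := hT.1 c 1 y (ρ g₀⁻¹ z')
      simp only [one_mul, one_pow, mul_one] at h5
      have h6 : eval (Sum.elim (fun i => c * y i) (ρ g₀⁻¹ z')) (gb σ ρ χ E H) =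
          c ^ e₁ * eval (Sum.elim y (ρ g₀⁻¹ z')) (gb σ ρ χ E H) := h5
      rw [h6, ha1]
      exact mul_ne_zero (Units.ne_zero _) (mul_ne_zero (pow_ne_zero _ hc0)
        (mul_ne_zero ha0 (mul_ne_zero hE2 hH3)))
    · obtain ⟨E, hE1, hE2, hE3, hE4⟩ := hb y y' hy0 hy0' hy hy' horb
      obtain ⟨H, hH1, hH2⟩ := exists_pow (e := e₂) hz0'
      obtain ⟨c, hc0, hc⟩ := hval E H y' hE1 hH1 hE3
      exact ⟨_, gsection_gb σ ρ χ hE1 hH1, hvan E H y z hE4, by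
        rw [hc]
        exact mul_ne_zero hc0 (mul_ne_zero hE2 hH2)⟩
  · intro y u z w hy0 hz0 hy hu hne
    by_cases hdir : ∃ c : ℂ, ∀ i, u i = c * y i
    · obtain ⟨c, hcu⟩ := hdir
      obtain ⟨E, hE1, hE2, hE3⟩ := ha y hy0 hy
      obtain ⟨H, hH1, hH2, hH3⟩ := exists_form' he₂ hz0 (fun ⟨c', hc'⟩ => hne ⟨c, c', hcu, hc'⟩)
      obtain ⟨a, ha0, ha1⟩ := hval E H y hE1 hH1 hE3
      have huc : u = fun i => c * y i := funext hcu
      obtain ⟨b, hb0, hb1⟩ := hder E H y u z w hE1 hH1 (fun g hg => ⟨hE3 g hg, by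
        rw [huc, der_smul_self (subst_isHomogeneous (σ g) hE1), eval_subst, hE3 g hg, mul_zero]⟩)
      refine ⟨_, gsection_gb σ ρ χ hE1 hH1, by rw [ha1, hH2, mul_zero, mul_zero], ?_⟩
      rw [hb1, hH2, mul_zero, zero_add]
      exact mul_ne_zero hb0 (mul_ne_zero hE2 hH3)
    · obtain ⟨E, hE1, hE2, hE3, hE4⟩ := hc y u hy0 hy hu hdir
      obtain ⟨H, hH1, hH2⟩ := exists_pow (e := e₂) hz0
      obtain ⟨b, hb0, hb1⟩ := hder E H y u z w hE1 hH1 (fun g hg => ⟨hE3 g, by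
        have h1 := der_subst (σ g) E y u
        change der y u (subst (σ g) E) = der (σ g y) (σ g u) E at h1
        rw [h1, hE4 g hg]⟩)
      have h1 : eval y E = 0 := by
        have h2 := hE3 1
        rw [map_one] at h2
        exact h2
      refine ⟨_, gsection_gb σ ρ χ hE1 hH1, hvan E H y z hE3, ?_⟩
      rw [hb1, h1, zero_mul, add_zero]
      exact mul_ne_zero hb0 (mul_ne_zero hE2 hH2)

end Pool.Agent.Zk57.TW
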